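import Pool.Agent.Helper24.KF.Ker

/-!
# `ℓ`-adic regulators and Euler characteristics of hypersurface complements

Let `ℓ` be a prime, `k` a number field and `m ≥ 0`. For a Chow motive `N` over `k` let
`src m N = H^{-m}_M(N, ℚ(0))_hom ⊗ ℚ_ℓ` and `tgt m N = H^1_st(G_k, H^{-m-1}(N̄, ℚ_ℓ))`, two additive
functors of `N`, and let `reg m : src m → tgt m` be the `ℓ`-adic regulator. For the motive `N = h(X)(j)` of a
smooth projective `X` this is the map
`H^{2j-m}_M(X, ℚ(j))_hom ⊗ ℚ_ℓ → H^1_st(G_k, H^{2j-m-1}(X̄, ℚ_ℓ(j)))` of question Q1 for `X`, `i = 2j - m` and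
`j`. (Q1 says that the regulator is injective with image `H^1_st`. That it takes values in `H^1_st` is known:
motivic classes extend to the complement of finitely many fibres of a model, and the regulators are
potentially semistable at the places above `ℓ` by the comparison theorems, Nekovář, Nizioł.) The kernels and
the cokernels of the regulators are additive functors `ker (reg m)` and `coker (reg m)` of `N`, and Q1 for
`X`, `m`, `j` (`Conj m j X`) is the vanishing of both for `N = h(X)(j)`. Nothing is known about the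
dimensions of these spaces.

For a separated scheme `X` of finite type over `k` let `W(X)` be its weight complex with compact supports
(Gillet, Soulé), a bounded complex of Chow motives. If the spaces `H^c(ker (reg m)(W(X)(j)))` and
`H^c(coker (reg m)(W(X)(j)))` have finite dimension, and almost all of them are zero (`HasChi m j X`), let
`euler m j X` be the sum of the two Euler characteristics.

We look at the principal open subsets `D(F) : F ≠ 0` of the affine spaces over `ℚ`, for polynomials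
`F ∈ ℤ[x_1, …, x_r]`. Let `‖F‖` be the sum of the absolute values of the coefficients, and let
`size F = deg F + log ‖F‖ / log (log ‖F‖ + 3)`.

**Theorem.** (1) Let `m`, `j`, `d` be given. Q1 is true for `m`, `j` and all smooth projective varieties of
dimension at most `d` over all number fields if and only if for all `F ∈ ℤ[x_1, …, x_(d+1)]` the Euler
characteristic `euler m j D(F)` is defined, and it is `o(size F)`. The same over one number field `k`, with
the degree instead of the size, and `F ∈ k[x_1, …, x_(d+1)]`.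

(2) If `κ ≥ 1`, then it is enough that the numbers `euler m j D(F)` are defined and `o((size F)^κ)`
for `F ∈ ℤ[x_1, …, x_(d+κ)]`. One-sided bounds (`euler ≤ o((size F)^κ)`, or `-euler ≤ o((size F)^κ)`) for
the polynomials in `d + κ` and in `d + κ + 1` variables are enough, too.

(3) For all `m` and `j` question Q1 for `m`, `j`, all smooth projective varieties and all number fields is
equivalent to the existence of one-sided bounds `o((size F)^(r - s))` for all `s`, all `r ≥ r₀(s)` and all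
`F ∈ ℤ[x_1, …, x_r]`, and this for each of the two sides.
-/

set_option autoImplicit false
set_option linter.checkUnivs false

open CategoryTheory Limits AlgebraicGeometry Pool.Agent.Y116.UV Pool.Agent.Q282.UM
  Pool.Agent.Q282.UK Pool.Agent.Helper24.KD Pool.Agent.Helper24.KF

universe v u

namespace Pool.Agent.Results.MP_76188c_nt.EulerCharacteristics

/-- The principal open subset `D(F) : F ≠ 0` of the affine space over `k`. -/
noncomputable def princ {k : Type} [Field k] {r : ℕ} (F : MvPolynomial (Fin r) k) : Sch k :=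
  aff k (Localization.Away F)

/-- The sum of the absolute values of the coefficients. -/
def norm {r : ℕ} (F : MvPolynomial (Fin r) ℤ) : ℕ := ∑ s ∈ F.support, (F.coeff s).natAbs

/-- The size `deg F + log ‖F‖ / log (log ‖F‖ + 3)`. -/
noncomputable def size {r : ℕ} (F : MvPolynomial (Fin r) ℤ) : ℝ :=
  F.totalDegree + Real.log (norm F) / Real.log (Real.log (norm F) + 3)

/-- The polynomial with rational coefficients. -/
noncomputable def rat {r : ℕ} (F : MvPolynomial (Fin r) ℤ) : MvPolynomial (Fin r) ℚ :=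
  MvPolynomial.map (algebraMap ℤ ℚ) F

/-- The category `C` of Chow motives over `k`, with

* the motives `h(X)`, the Tate twists `N(j)` and the weight complexes `W(X)` (`Weights`);
* the functors `src m`, `tgt m` and the regulators `reg m`. -/
structure Mot (ℓ : ℕ) [Fact ℓ.Prime] (k : Type) [Field k] where
  C : Type u
  [cat : Category.{v} C]
  [pre : Preadditive C]
  [zero : HasZeroObject C]
  [bin : HasBinaryBiproducts C]
  [fin : HasFiniteBiproducts C]
  D : Weights k C
  src : ℕ → C ⥤ ModuleCat.{0} ℚ_[ℓ]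
  tgt : ℕ → C ⥤ ModuleCat.{0} ℚ_[ℓ]
  [src_additive : ∀ m, (src m).Additive]
  [tgt_additive : ∀ m, (tgt m).Additive]
  reg : ∀ m, src m ⟶ tgt m

attribute [instance] Mot.cat Mot.pre Mot.zero Mot.bin Mot.fin Mot.src_additive Mot.tgt_additive

section

variable {ℓ : ℕ} [Fact ℓ.Prime] {k : Type} [Field k] (M : Mot.{v, u} ℓ k)

/-- The motive `h(X)(j)`. -/
noncomputable def Mot.motive (j : ℤ) (X : Sch k) : M.C := (M.D.tw j).obj (M.D.h X)

/-- Question Q1 for the smooth projective scheme `X`, `i = 2j - m` and `j`. -/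
def Conj (m : ℕ) (j : ℤ) (X : Sch k) : Prop := IsIso ((M.reg m).app (M.motive j X))

/-- The complex `W(X)(j)`. -/
noncomputable def Mot.wt (j : ℤ) (X : Sch k) : HK M.C := onHK (M.D.tw j) (M.D.W X)

/-- The Euler characteristic is defined. -/
def HasChi (m : ℕ) (j : ℤ) (X : Sch k) : Prop :=
  FinCoh (kerF (M.reg m)) (M.wt j X) ∧ FinCoh (cokerF (M.reg m)) (M.wt j X)

/-- The Euler characteristic. -/
noncomputable def euler (m : ℕ) (j : ℤ) (X : Sch k) : ℤ :=
  chi (kerF (M.reg m)) (M.wt j X) + chi (cokerF (M.reg m)) (M.wt j X)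

end

/-- The known properties of the Chow motives over all number fields.

* `weight`: the weight complexes;
* `points`: Q1 is true in dimension zero (Soulé, Borel);
* `restrict`: a smooth projective scheme over `k` is a smooth projective scheme over `ℚ`, with the same
  motivic cohomology and, by Shapiro's lemma, the same Galois cohomology. -/
structure Known {ℓ : ℕ} [Fact ℓ.Prime]
    (M : ∀ (k : Type) [Field k] [NumberField k], Mot.{v, u} ℓ k) : Prop where
  weight : ∀ (k : Type) [Field k] [NumberField k], IsWeightComplex (M k).D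
  points : ∀ (k : Type) [Field k] [NumberField k] (X : Sch k), IsSmoothProjective X →
    topologicalKrullDim X.left ≤ (0 : ℕ) → ∀ (m : ℕ) (j : ℤ), Conj (M k) m j X
  restrict : ∀ (k : Type) [Field k] [NumberField k] (X : Sch k), IsSmoothProjective X →
    ∃ X' : Sch ℚ, IsSmoothProjective X' ∧
      topologicalKrullDim X'.left = topologicalKrullDim X.left ∧ ∀ (m : ℕ) (j : ℤ),
        (Conj (M ℚ) m j X' ↔ Conj (M k) m j X)

/-- The numbers `euler m j D(F)`, `F ∈ ℤ[x_1, …, x_r]`, are defined and satisfy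
`R (euler) ≤ o((size F)^κ)`, where `R c` is `|c|`, `c` or `-c`. -/
def Bound {ℓ : ℕ} [Fact ℓ.Prime] (M : Mot.{v, u} ℓ ℚ) (R : ℤ → ℤ) (m : ℕ) (j : ℤ) (r κ : ℕ) :
    Prop :=
  ∀ ε : ℝ, 0 < ε → ∃ B : ℝ, ∀ F : MvPolynomial (Fin r) ℤ, HasChi M m j (princ (rat F)) ∧
    (R (euler M m j (princ (rat F))) : ℝ) ≤ ε * size F ^ κ + B

/-- The numbers `euler m j D(F)`, `F ∈ k[x_1, …, x_r]`, are defined and `o(deg F)`. -/
def DegBound {ℓ : ℕ} [Fact ℓ.Prime] {k : Type} [Field k] (M : Mot.{v, u} ℓ k) (m : ℕ) (j : ℤ)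
    (r : ℕ) : Prop :=
  ∀ ε : ℝ, 0 < ε → ∃ B : ℝ, ∀ F : MvPolynomial (Fin r) k, HasChi M m j (princ F) ∧
    |(euler M m j (princ F) : ℝ)| ≤ ε * F.totalDegree + B

/-- Q1 for `m`, `j` and the smooth projective varieties of dimension at most `d` over all number
fields. -/
def ConjDim {ℓ : ℕ} [Fact ℓ.Prime] (M : ∀ (k : Type) [Field k] [NumberField k], Mot.{v, u} ℓ k)
    (m : ℕ) (j : ℤ) (d : ℕ) : Prop :=
  ∀ (k : Type) [Field k] [NumberField k] (X : Sch k), IsSmoothProjective X →
    topologicalKrullDim X.left ≤ d → Conj (M k) m j X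

/-- Q1 for `m`, `j` and all smooth projective varieties over all number fields. -/
def ConjAll {ℓ : ℕ} [Fact ℓ.Prime] (M : ∀ (k : Type) [Field k] [NumberField k], Mot.{v, u} ℓ k)
    (m : ℕ) (j : ℤ) : Prop :=
  ∀ (k : Type) [Field k] [NumberField k] (X : Sch k), IsSmoothProjective X → Conj (M k) m j X

section

variable {ℓ : ℕ} [Fact ℓ.Prime] {M : ∀ (k : Type) [Field k] [NumberField k], Mot.{v, u} ℓ k}
  (hM : Known M)

variable (M) in
/-- The Euler characteristic is defined and is `c`. -/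
def Q (k : Type) [Field k] [NumberField k] (m : ℕ) (j : ℤ) : Sch k → ℤ → Prop :=
  QT (TSum (kerF ((M k).reg m)) (cokerF ((M k).reg m))) (M k).D j

lemma Q_iff (k : Type) [Field k] [NumberField k] (m : ℕ) (j : ℤ) (X : Sch k) (c : ℤ) :
    Q M k m j X c ↔ HasChi (M k) m j X ∧ euler (M k) m j X = c :=
  ⟨fun h => ⟨⟨h.1, h.2.1⟩, h.2.2⟩, fun h => ⟨h.1.1, h.1.2, h.2⟩⟩

include hM

variable (k : Type) [Field k] [NumberField k]

lemma dfc (m : ℕ) (j : ℤ) : Pool.Agent.Helper24.KE.Dfc True (Q M k m j) :=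
  dfcT (tSum _ _) (hM.weight k) j

/-- Exact formulas in dimension at most `d`. -/
lemma exact_dim {m : ℕ} {j : ℤ} {d : ℕ} (h : ∀ X : Sch k, IsSmoothProjective X →
    topologicalKrullDim X.left ≤ d → Conj (M k) m j X) (X : Sch k) (hX : FT True X)
    (hd : topologicalKrullDim X.left ≤ d) : Q M k m j X 0 :=
  sum_zero (hM.weight k) (fun Y hY hYd => (iso_iff _ _).mp (h Y hY hYd)) X hX hd

lemma space (m : ℕ) (j : ℤ) (n : ℕ) : Q M k m j (aff k (MvPolynomial (Fin n) k)) 0 := by
  refine spaceT (tSum _ _) (hM.weight k) (fun j => ?_) j n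
  refine exact_dim hM k (fun X hX hd => hM.points k X hX hd m j) _ (ft_aff True) ?_
  rw [Pool.Agent.Z125.UN.topDim_aff, ringKrullDim_eq_zero_of_field]
  exact le_rfl

lemma conj_of_zero {m : ℕ} {j : ℤ} {X : Sch k} (hX : IsSmoothProjective X)
    (h : Q M k m j X 0) : Conj (M k) m j X :=
  (iso_iff _ _).mpr (sum_inZero_zero (projT (tSum _ _) (hM.weight k) hX h))

lemma all_of_rat {m : ℕ} {j : ℤ} {d : ℕ} (h : ∀ X : Sch ℚ, IsSmoothProjective X →
    topologicalKrullDim X.left ≤ d → Conj (M ℚ) m j X) : ConjDim M m j d := by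
  intro k _ _ X hX hd
  obtain ⟨X', hX', e1, e2⟩ := hM.restrict k X hX
  exact (e2 m j).mp (h X' hX' (e1 ▸ hd))

omit hM in
lemma to_Z {R : ℤ → ℤ} {m : ℕ} {j : ℤ} {r κ : ℕ} (h : Bound (M ℚ) R m j r κ) :
    BoundZ (Q M ℚ m j) R r κ := by
  intro ε hε
  obtain ⟨B, hB⟩ := h ε hε
  exact ⟨B, fun F => ⟨_, (Q_iff ℚ m j _ _).mpr ⟨(hB F).1, rfl⟩, (hB F).2⟩⟩

omit hM in
lemma of_Z {R : ℤ → ℤ} {m : ℕ} {j : ℤ} {r κ : ℕ} (h : BoundZ (Q M ℚ m j) R r κ) :
    Bound (M ℚ) R m j r κ := by
  intro ε hε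
  obtain ⟨B, hB⟩ := h ε hε
  refine ⟨B, fun F => ?_⟩
  obtain ⟨c, h1, h2⟩ := hB F
  obtain ⟨h3, h4⟩ := (Q_iff ℚ m j _ c).mp h1
  refine ⟨h3, ?_⟩
  have h5 : euler (M ℚ) m j (princ (rat F)) = c := h4
  rw [h5]
  exact h2

/-- From the conjecture to the bounds. -/
lemma to_bound {m : ℕ} {j : ℤ} {d : ℕ} (h : ConjDim M m j d) {R : ℤ → ℤ} (hR : R 0 = 0) (κ : ℕ) :
    Bound (M ℚ) R m j (d + 1) κ :=
  of_Z (to_boundZ (exact_open (dfc hM ℚ m j) (space hM ℚ m j) (exact_dim hM ℚ (h ℚ))) hR κ)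

/-- One number field. -/
theorem one_field (m : ℕ) (j : ℤ) (d : ℕ) :
    (∀ X : Sch k, IsSmoothProjective X → topologicalKrullDim X.left ≤ d → Conj (M k) m j X) ↔
      DegBound (M k) m j (d + 1) := by
  constructor
  · intro h ε hε
    obtain ⟨B, hB⟩ := to_boundK (exact_open (dfc hM k m j) (space hM k m j) (exact_dim hM k h)) ε hε
    refine ⟨B, fun F => ?_⟩
    obtain ⟨c, h1, h2⟩ := hB F
    obtain ⟨h3, h4⟩ := (Q_iff k m j _ c).mp h1
    refine ⟨h3, ?_⟩
    have h5 : euler (M k) m j (princ F) = c := h4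
    rw [h5]
    exact h2
  · intro h X hX hd
    refine conj_of_zero hM k hX (main_field (dfc hM k m j) (space hM k m j) ?_ X
      (ft_projective hX) hd)
    intro ε hε
    obtain ⟨B, hB⟩ := h ε hε
    exact ⟨B, fun F => ⟨_, (Q_iff k m j _ _).mpr ⟨(hB F).1, rfl⟩, (hB F).2⟩⟩

end

/-- Q1 for `m` and `j`; upper bounds for the Euler characteristics; lower bounds. -/
def Forms {ℓ : ℕ} [Fact ℓ.Prime] (M : ∀ (k : Type) [Field k] [NumberField k], Mot.{v, u} ℓ k)
    (m : ℕ) (j : ℤ) : List Prop :=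
  [ConjAll M m j,
    ∀ s : ℕ, ∃ r₀ : ℕ, ∀ r, r₀ ≤ r → Bound (M ℚ) id m j r (r - s),
    ∀ s : ℕ, ∃ r₀ : ℕ, ∀ r, r₀ ≤ r → Bound (M ℚ) Neg.neg m j r (r - s)]

theorem forms_tfae {ℓ : ℕ} [Fact ℓ.Prime]
    {M : ∀ (k : Type) [Field k] [NumberField k], Mot.{v, u} ℓ k} (hM : Known M) (m : ℕ) (j : ℤ) :
    (Forms M m j).TFAE := by
  unfold Forms
  have hres : (∀ X : Sch ℚ, IsSmoothProjective X → Conj (M ℚ) m j X) → ConjAll M m j := by
    intro h k _ _ X hX
    obtain ⟨X', h1, _, h3⟩ := hM.restrict k X hX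
    exact (h3 m j).mp (h X' h1)
  have hto : ConjAll M m j → ∀ R : ℤ → ℤ, R 0 = 0 →
      ∀ s : ℕ, ∃ r₀ : ℕ, ∀ r, r₀ ≤ r → Bound (M ℚ) R m j r (r - s) := by
    intro h R hR s
    refine ⟨1, fun r hr => ?_⟩
    obtain ⟨d, rfl⟩ : ∃ d, r = d + 1 := ⟨r - 1, by omega⟩
    exact to_bound hM (fun k _ _ X hX _ => h k X hX) hR _
  have hof : ∀ R : ℤ → ℤ, (R = id ∨ R = Neg.neg) →
      (∀ s : ℕ, ∃ r₀ : ℕ, ∀ r, r₀ ≤ r → Bound (M ℚ) R m j r (r - s)) → ConjAll M m j :=
    fun R hR h => hres fun X hX => conj_of_zero hM ℚ hX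
      (main_all (dfc hM ℚ m j) (space hM ℚ m j) hR (fun s => by
        obtain ⟨r₀, hr⟩ := h s
        exact ⟨r₀, fun r h1 => to_Z (hr r h1)⟩) X (ft_projective hX))
  tfae_have 1 → 2 := fun h => hto h id rfl
  tfae_have 1 → 3 := fun h => hto h Neg.neg neg_zero
  tfae_have 2 → 1 := fun h => hof id (Or.inl rfl) h
  tfae_have 3 → 1 := fun h => hof Neg.neg (Or.inr rfl) h
  tfae_finish

/-- **`ℓ`-adic regulators and Euler characteristics of hypersurface complements.** See the
explanations above. -/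
theorem result (ℓ : ℕ) [Fact ℓ.Prime] (M : ∀ (k : Type) [Field k] [NumberField k], Mot.{v, u} ℓ k)
    (hM : Known M) (m : ℕ) (j : ℤ) :
    -- (1) two-sided bounds `o(size)`
    (∀ d : ℕ, (ConjDim M m j d ↔ Bound (M ℚ) abs m j (d + 1) 1) ∧
      ∀ (k : Type) [Field k] [NumberField k],
        ((∀ X : Sch k, IsSmoothProjective X → topologicalKrullDim X.left ≤ d → Conj (M k) m j X) ↔
          DegBound (M k) m j (d + 1))) ∧
    -- (2) bounds `o(size^κ)`, and one-sided bounds
    (∀ d κ : ℕ, 1 ≤ κ → Bound (M ℚ) abs m j (d + κ) κ → ConjDim M m j d) ∧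
    (∀ d κ : ℕ, 1 ≤ κ → ∀ R : ℤ → ℤ, (R = id ∨ R = Neg.neg) →
      Bound (M ℚ) R m j (d + κ) κ → Bound (M ℚ) R m j (d + κ + 1) κ → ConjDim M m j d) ∧
    -- (3) question Q1 for `m` and `j`
    (Forms M m j).TFAE := by
  refine ⟨fun d => ⟨⟨?_, ?_⟩, fun k _ _ => one_field hM k m j d⟩, ?_, ?_, forms_tfae hM m j⟩
  · exact fun h => to_bound hM h abs_zero 1
  · exact fun h => all_of_rat hM fun X hX hd => conj_of_zero hM ℚ hX
      (main_abs (dfc hM ℚ m j) (space hM ℚ m j) le_rfl (to_Z h) X (ft_projective hX) hd)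
  · intro d κ hκ h
    exact all_of_rat hM fun X hX hd => conj_of_zero hM ℚ hX
      (main_abs (dfc hM ℚ m j) (space hM ℚ m j) hκ (to_Z h) X (ft_projective hX) hd)
  · intro d κ hκ R hR h h'
    exact all_of_rat hM fun X hX hd => conj_of_zero hM ℚ hX
      (main_one (dfc hM ℚ m j) (space hM ℚ m j) hκ hR (to_Z h) (to_Z h') X (ft_projective hX) hd)

end Pool.Agent.Results.MP_76188c_nt.EulerCharacteristics
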