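import Pool.Agent.Helper19.UA.Wt

/-!
# `ℓ`-adic regulators and smooth unions of two affine spaces

Let `ℓ` be a prime, `k` a number field and `m` an integer. For a Chow motive `N` over `k` and an integer `j`
let `A^j(N) = H^{2j-m}_M(N, ℚ(j))_hom ⊗ ℚ_ℓ`, a part of `K_m(N)^{(j)} ⊗ ℚ_ℓ` (zero for `m < 0`), and
`B^j(N) = H^1_st(G_k, H^{2j-m-1}(N̄, ℚ_ℓ(j)))`, two additive functors of `N`. The `ℓ`-adic regulator is a map
`A^j(N) → B^j(N)`, and for `N = h(X)` this is the map of question Q1 for `X`, `j` and `i = 2j - m`. (Q1 says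
that the regulator of `X` is injective with image `H^1_st`. That it takes values in `H^1_st` is known:
motivic classes extend to the complement of finitely many fibres of a model, and the regulators are
potentially semistable at the places above `ℓ` by the comparison theorems, Nekovář, Nizioł.)

For a separated scheme `X` of finite type over `k` let `W(X)` be its weight complex with compact supports
(Gillet, Soulé), a complex of Chow motives, and put `A^{j,c}(X) = H^c(A^j(W(X)))`,
`B^{j,c}(X) = H^c(B^j(W(X)))`. The regulator induces maps `A^{j,c}(X) → B^{j,c}(X)`. For smooth projective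
`X` these are the regulators of `X` if `c = 0`, and the groups for `c ≠ 0` are zero. `Reg (C k m) j X` says
that the maps are isomorphisms for the given `m` and `j` and all `c`.

For a polynomial `F(x_1, …, x_N)` let `S_F : t ^ 2 - t = y F(x)` be the double cover of the affine space
of dimension `N + 1` (`dblS F`), and let `V_F : F = 0` be the hypersurface (`hyper F`), which can be very
singular.

**Theorem.** (1) `S_F` is smooth and the union of two open subschemes which are affine spaces of
dimension `N + 1`. The maps of `S_F` for `m` and `j + 1` are isomorphisms if and only if those of `V_F`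
for `m` and `j` are.

(2) Let `m`, `j`, `d` be given. Q1 is true for `i = 2j - m`, `j` and all smooth projective varieties of
dimension at most `d` over all number fields if and only if the maps of `S_F` for `m` and `j + 1` are
isomorphisms for all `F ∈ ℚ[x_1, …, x_{d+1}]`. The same with a fixed number field `k` and
`F ∈ k[x_1, …, x_{d+1}]`.

(3) Hence Q1 for all number fields, all smooth projective varieties and all `i`, `j` is equivalent to the
statement that the maps are isomorphisms for all smooth affine schemes over `ℚ` which are unions of two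
open subschemes isomorphic to an affine space.
-/

set_option autoImplicit false

open CategoryTheory CategoryTheory.Limits AlgebraicGeometry Pool.Agent.Y116.UV
  Pool.Agent.Q193.LT Pool.Agent.Q49.WU Pool.Agent.Helper62.DB Pool.Agent.Helper19.UA

universe w

namespace Pool.Agent.Results.MP_76188c_nt.OneDimensionOneWeight

/-- The double cover `t ^ 2 - t = y F` over `k`, `F` in the polynomial ring `D`. -/
noncomputable def dblS {k D : Type} [Field k] [CommRing D] [Algebra k D] (F : D) : Sch k :=
  aff k (Db F)

/-- The hypersurface `F = 0` over `k`. -/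
noncomputable def hyper {k D : Type} [Field k] [CommRing D] [Algebra k D] (F : D) : Sch k :=
  aff k (D ⧸ Ideal.span {F})

/-- `X` is the union of two open subschemes which are isomorphic to the affine space of dimension
`N`. -/
def TwoSpaces {k : Type} [Field k] (N : ℕ) (X : Sch k) : Prop :=
  ∃ j₁ j₂ : aff k (MvPolynomial (Fin N) k) ⟶ X, IsOpenImmersion j₁.left ∧
    IsOpenImmersion j₂.left ∧ Set.range j₁.left ∪ Set.range j₂.left = Set.univ

/-- The regulators of the prime `ℓ` over all number fields `k`, for all integers `m = 2 j - i`. -/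
abbrev Regulators (ℓ : ℕ) [Fact ℓ.Prime] : Type _ :=
  ∀ (k : Type) [Field k] [NumberField k] (_ : ℤ), PairData.{w} k (ℤ × ℤ) ℚ_[ℓ]

/-- The regulators of weight `j` are isomorphisms. -/
def Reg {ℓ : ℕ} [Fact ℓ.Prime] {k : Type} [Field k] (C : PairData.{w} k (ℤ × ℤ) ℚ_[ℓ]) (j : ℤ)
    (X : Sch k) : Prop :=
  BijAt C Prod.fst j X

variable {ℓ : ℕ} [Fact ℓ.Prime]

/-- The known properties of the regulators. `pair`: long exact sequences for closed-open decompositions,
affine bundles, products with `𝔾_m`. `gen`: the weight complex of a scheme of dimension at most `d`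
consists of motives of smooth projective schemes of dimension at most `d` (Gillet, Soulé). `zero`: the
case of the schemes of dimension zero, that is of number fields (Soulé, Borel; for `m < 0` this is
`H^1_st(G_k, ℚ_ℓ(j)) = 0` for `j ≤ 0`: Soulé, and the finiteness of the class number for `j = 0`). `restrict`: a smooth
projective scheme over `k` is a smooth projective scheme over `ℚ`, with the same motivic cohomology and,
by Shapiro's lemma, the same Galois cohomology. -/
structure Known (C : Regulators.{w} ℓ) : Prop where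
  pair : ∀ (k : Type) [Field k] [NumberField k] (m : ℤ), IsWeightPair (C k m)
  gen : ∀ (k : Type) [Field k] [NumberField k] (m : ℤ) (j : ℤ) (d : ℕ),
    (∀ Y : Sch k, SmoothProj Y → topologicalKrullDim Y.left ≤ d → Reg (C k m) j Y) →
    ∀ X : Sch k, FT True X → topologicalKrullDim X.left ≤ d → Reg (C k m) j X
  zero : ∀ (k : Type) [Field k] [NumberField k] (Y : Sch k), SmoothProj Y →
    topologicalKrullDim Y.left ≤ (0 : ℕ) → ∀ (m : ℤ) (j : ℤ), Reg (C k m) j Y
  restrict : ∀ (k : Type) [Field k] [NumberField k] (Y : Sch k), SmoothProj Y →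
    ∃ Y' : Sch ℚ, SmoothProj Y' ∧ topologicalKrullDim Y'.left = topologicalKrullDim Y.left ∧
      ∀ (m : ℤ) (j : ℤ), (Reg (C k m) j Y ↔ Reg (C ℚ m) j Y')

variable {C : Regulators.{w} ℓ} (hC : Known C)

section geometry

variable {k D : Type} [Field k] [CommRing D] [Algebra k D] (F : D) {M : ℕ}
  (e : Polynomial D ≃ₐ[k] MvPolynomial (Fin M) k)

include e

lemma two_spaces : TwoSpaces M (dblS (k := k) F) := two_spaces0 F e

lemma smooth_dblS : Smooth (dblS (k := k) F).hom := smooth0 F e

end geometry

section

include hC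

variable (k : Type) [Field k] [NumberField k] (m : ℤ)

lemma point : BijAll (C k m) (aff k k) := by
  intro j
  refine hC.gen k m j.1 0 (fun Y hY hd => hC.zero k Y hY hd m _) (aff k k) (ft_aff True) ?_ j rfl
  rw [Pool.Agent.Z125.UN.topDim_aff, ringKrullDim_eq_zero_of_field]
  exact le_rfl

lemma wuni : WUni True (fun j => Reg (C k m) j) :=
  wuni_pair (hC.pair k m) graded_weight (point hC k m)

/-- One double cover and one hypersurface. -/
lemma dbl_reg {σ : Type} [Finite σ] (F : MvPolynomial σ k) (j : ℤ)
    (hD : Reg (C k m) j (aff k (MvPolynomial σ k))) :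
    Reg (C k m) (j + 1) (dblS F) ↔ Reg (C k m) j (hyper F) :=
  dbl_at (wuni hC k m) F j hD

lemma space (j : ℤ) (N : ℕ) : Reg (C k m) j (aff k (MvPolynomial (Fin N) k)) :=
  (wuni hC k m).space j N

/-- All affine schemes of finite type. -/
lemma ft_affine {j : ℤ} (h : ∀ Y : Sch k, SmoothProj Y → Reg (C k m) j Y) (A : Type) [CommRing A]
    [Algebra k A] [Algebra.FiniteType k A] : Reg (C k m) j (aff k A) := by
  obtain ⟨n, f, hf⟩ := Algebra.FiniteType.iff_quotient_mvPolynomial''.mp
    (inferInstance : Algebra.FiniteType k A)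
  refine hC.gen k m j n (fun Y hY _ => h Y hY) (aff k A) (ft_aff True) ?_
  rw [Pool.Agent.Z125.UN.topDim_aff]
  refine (ringKrullDim_le_of_surjective f.toRingHom hf).trans ?_
  rw [MvPolynomial.ringKrullDim_of_isNoetherianRing, ringKrullDim_eq_zero_of_field, zero_add,
    Nat.card_eq_fintype_card, Fintype.card_fin]

/-- All schemes of finite type. -/
lemma ft_all {j : ℤ} (h : ∀ Y : Sch k, SmoothProj Y → Reg (C k m) j Y) (X : Sch k)
    (hX : FT True X) : Reg (C k m) j X :=
  of_affine' (P := fun X => Reg (C k m) j X) ((wuni hC k m).iso j) ((wuni hC k m).total j)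
    (fun A _ _ _ => ft_affine hC k m h A) X hX

/-- One weight and one dimension. -/
theorem dim_reg (j : ℤ) (d : ℕ) :
    (∀ Y : Sch k, SmoothProj Y → topologicalKrullDim Y.left ≤ d → Reg (C k m) j Y) ↔
      ∀ F : MvPolynomial (Fin (d + 1)) k, Reg (C k m) (j + 1) (dblS F) := by
  constructor
  · intro h F
    rw [dbl_reg hC k m F j (space hC k m j _)]
    by_cases hF : Ideal.span {F} = ⊥
    · change Reg (C k m) j (aff k (_ ⧸ Ideal.span {F}))
      rw [hF]
      exact Pool.Agent.Helper62.EC.iso_alg (cls (wuni hC k m) j)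
        (AlgEquiv.quotientBot k _).symm (space hC k m j _)
    · refine hC.gen k m j d h (hyper F) (ft_aff True) ?_
      change topologicalKrullDim (aff k (_ ⧸ Ideal.span {F})).left ≤ d
      rw [Pool.Agent.Z125.UN.topDim_aff]
      exact Pool.Agent.Z125.UN.dim_quot _ hF
  · intro h Y hY hd
    exact of_hyp (cls (wuni hC k m) j) (space hC k m j _)
      (fun F => (dbl_reg hC k m F j (space hC k m j _)).mp (h F)) Y hY.ft hd

/-- All double covers and all schemes of finite type. -/
lemma all_of_dbl (j : ℤ) (h : ∀ (N : ℕ) (F : MvPolynomial (Fin N) k),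
    Reg (C k m) (j + 1) (dblS F)) (X : Sch k) (hX : FT True X) : Reg (C k m) j X := by
  refine of_affine' (P := fun X => Reg (C k m) j X) ((wuni hC k m).iso j)
    ((wuni hC k m).total j) (fun A _ _ _ => ?_) X hX
  obtain ⟨n, f, hf⟩ := Algebra.FiniteType.iff_quotient_mvPolynomial''.mp
    (inferInstance : Algebra.FiniteType k A)
  exact of_surj (cls (wuni hC k m) j) (closed_all (cls (wuni hC k m) j) (space hC k m j n)
    (fun F => (dbl_reg hC k m F j (space hC k m j n)).mp (h n F))) f hf

end

/-- The statement of Q1 for `ℓ`; the maps are isomorphisms for all separated schemes of finite type over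
number fields; for the smooth affine schemes over `ℚ` which are unions of two open affine spaces; for
the double covers `t ^ 2 - t = y F(x)` over `ℚ`. -/
def Forms (C : Regulators.{w} ℓ) : List Prop :=
  [∀ (k : Type) [Field k] [NumberField k] (Y : Sch k), SmoothProj Y →
      ∀ (m : ℤ) (j : ℤ), Reg (C k m) j Y,
    ∀ (k : Type) [Field k] [NumberField k] (X : Sch k), FT True X →
      ∀ (m : ℤ) (j : ℤ), Reg (C k m) j X,
    ∀ (A : Type) [CommRing A] [Algebra ℚ A], Algebra.FiniteType ℚ A → Smooth (aff ℚ A).hom →
      (∃ N, TwoSpaces N (aff ℚ A)) → ∀ (m : ℤ) (j : ℤ), Reg (C ℚ m) j (aff ℚ A),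
    ∀ (N : ℕ) (F : MvPolynomial (Fin N) ℚ) (m : ℤ) (j : ℤ), Reg (C ℚ m) j (dblS F)]

include hC in
theorem forms_tfae : (Forms C).TFAE := by
  unfold Forms
  have hres : (∀ (m : ℤ) (j : ℤ) (Y : Sch ℚ), SmoothProj Y → Reg (C ℚ m) j Y) →
      ∀ (k : Type) [Field k] [NumberField k] (Y : Sch k), SmoothProj Y →
      ∀ (m : ℤ) (j : ℤ), Reg (C k m) j Y := by
    intro h k _ _ Y hY m j
    obtain ⟨Y', hY', _, e⟩ := hC.restrict k Y hY
    exact (e m j).mpr (h m j Y' hY')
  tfae_have 1 → 2 := fun h k _ _ X hX m j => ft_all hC k m (fun Y hY => h k Y hY m j) X hX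
  tfae_have 2 → 1 := fun h k _ _ Y hY m j => h k Y hY.ft m j
  tfae_have 2 → 3 := fun h A _ _ hA _ _ m j => h ℚ (aff ℚ A) (ft_aff True) m j
  tfae_have 3 → 4 := fun h N F m j => h _ inferInstance
    (smooth_dblS F (MvPolynomial.finSuccEquiv ℚ N).symm)
    ⟨_, two_spaces F (MvPolynomial.finSuccEquiv ℚ N).symm⟩ m j
  tfae_have 4 → 1 := fun h => hres fun m j Y hY =>
    all_of_dbl hC ℚ m j (fun N F => h N F m _) Y hY.ft
  tfae_finish

/-- **`ℓ`-adic regulators and smooth unions of two affine spaces.** See the explanations above. -/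
theorem result (hC : Known C) :
    -- (1) the double covers are smooth, and unions of two affine spaces; one of them is as hard as
    -- one hypersurface
    (∀ (k : Type) [Field k] [NumberField k] (N : ℕ) (F : MvPolynomial (Fin N) k),
      Smooth (dblS (k := k) F).hom ∧ TwoSpaces (N + 1) (dblS (k := k) F) ∧
        ∀ (m : ℤ) (j : ℤ), Reg (C k m) (j + 1) (dblS F) ↔ Reg (C k m) j (hyper F)) ∧
    -- (2) one `K`-group, one weight, one dimension
    (∀ (m : ℤ) (j : ℤ) (d : ℕ),
      ((∀ (k : Type) [Field k] [NumberField k] (Y : Sch k), SmoothProj Y →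
          topologicalKrullDim Y.left ≤ d → Reg (C k m) j Y) ↔
        ∀ F : MvPolynomial (Fin (d + 1)) ℚ, Reg (C ℚ m) (j + 1) (dblS F)) ∧
      ∀ (k : Type) [Field k] [NumberField k],
        ((∀ Y : Sch k, SmoothProj Y → topologicalKrullDim Y.left ≤ d → Reg (C k m) j Y) ↔
          ∀ F : MvPolynomial (Fin (d + 1)) k, Reg (C k m) (j + 1) (dblS F))) ∧
    -- (3) question Q1
    (Forms C).TFAE := by
  refine ⟨fun k _ _ N F => ⟨smooth_dblS F (MvPolynomial.finSuccEquiv k N).symm,
      two_spaces F (MvPolynomial.finSuccEquiv k N).symm,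
      fun m j => dbl_reg hC k m F j (space hC k m j N)⟩,
    fun m j d => ⟨?_, fun k _ _ => dim_reg hC k m j d⟩, forms_tfae hC⟩
  rw [← dim_reg hC ℚ m j d]
  constructor
  · exact fun h => h ℚ
  · intro h k _ _ Y hY hd
    obtain ⟨Y', hY', e1, e2⟩ := hC.restrict k Y hY
    exact (e2 m j).mpr (h Y' hY' (e1 ▸ hd))

end Pool.Agent.Results.MP_76188c_nt.OneDimensionOneWeight
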