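import Pool.Agent.Helper24.SE.Mot

/-!
# `ℓ`-adic regulators and exceptional sets with a power saving

Let `ℓ` be a prime, `k` a number field and `m ≥ 0`. For a Chow motive `N` over `k` let
`src m N = H^{-m}_M(N, ℚ(0))_hom ⊗ ℚ_ℓ` and `tgt m N = H^1_st(G_k, H^{-m-1}(N̄, ℚ_ℓ))`, two additive
functors of `N`, and let `reg m : src m → tgt m` be the `ℓ`-adic regulator. For the motive `N = h(X)(j)` of a
smooth projective `X` this is the map
`H^{2j-m}_M(X, ℚ(j))_hom ⊗ ℚ_ℓ → H^1_st(G_k, H^{2j-m-1}(X̄, ℚ_ℓ(j)))` of question Q1 for `X`, `i = 2j - m` and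
`j`: Q1 says that it is injective and surjective. The kernels `K = ker (reg m)` and the cokernels
`L = coker (reg m)` are additive functors of `N`.

For a separated scheme `X` of finite type over `k` let `W(X)` be its weight complex with compact supports
(Gillet, Soulé), a bounded complex of Chow motives. For the complement `D(F)` of the hypersurface `F = 0` in
the affine space over `ℚ`, `F ∈ ℤ[x_1, …, x_r]`, and `T = K` or `T = L` we call `F` an exception for `T` if
it is false that the total dimension of the spaces `H^c(T(W(D(F))(j)))` is finite and their Euler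
characteristic is zero. Let `Box(D, B)` be the finite set of the `F` of degree at most `D` in each variable,
for which the sum of the absolute values of the coefficients is at most `B`, and `Exc(D, B)` the set of the
exceptions in the box.

**Theorem.** (1) Let `m`, `j`, `d` be given. The regulators are injective for all smooth projective
varieties of dimension at most `d` over all number fields if and only if the exceptional sets for `K` in
`d + 1` variables have a power saving: for some `ε > 0` there are infinitely many `D` and for these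
infinitely many `B` such that `#Exc(D, B) ≤ #Box(D, B) ^ (1 - ε)`. They are surjective if and only if the
exceptional sets for `L` have a power saving. So Q1 for `m`, `j`, `d` is equivalent to the power saving for
both.

(2) The regulators are injective (surjective) for all smooth projective varieties over all number fields if
and only if the exceptional sets for `K` (for `L`) in `r` variables have a power saving, for infinitely
many `r`.

(3) A zero–one law: if there is one exception for `T` in `r` variables, then for every `ε > 0`, for all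
large `D` and all large `B` (depending on `D`) there are more than `#Box(D, B) ^ (1 - ε)` exceptions.
-/

set_option autoImplicit false
set_option linter.checkUnivs false

open CategoryTheory Limits AlgebraicGeometry Filter Pool.Agent.Y116.UV Pool.Agent.Q282.UM
  Pool.Agent.Q282.UK Pool.Agent.Helper24.KD Pool.Agent.Helper24.KF

open Pool.Agent.Helper24.SE (Box Exc Saving)

universe v u

namespace Pool.Agent.Results.MP_76188c_nt.PowerSaving

/-- The complement `D(F) : F ≠ 0` in the affine space over `ℚ`. -/
noncomputable def princ {r : ℕ} (F : MvPolynomial (Fin r) ℤ) : Sch ℚ :=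
  aff ℚ (Localization.Away (MvPolynomial.map (algebraMap ℤ ℚ) F))

/-- The category `C` of Chow motives over `k`, with

* the motives `h(X)`, the Tate twists `N(j)` and the weight complexes `W(X)` (`Weights`);
* the functors `src m`, `tgt m` and the regulators `reg m`. -/
structure Mot (ℓ : ℕ) [Fact ℓ.Prime] (k : Type) [Field k] where
  C : Type u
  [cat : Category.{v} C]
  [pre : Preadditive C]
  [zero : HasZeroObject C]
  [bin : HasBinaryBiproducts C]
  [fin : HasFiniteBiproducts C]
  D : Weights k C
  src : ℕ → C ⥤ ModuleCat.{0} ℚ_[ℓ]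
  tgt : ℕ → C ⥤ ModuleCat.{0} ℚ_[ℓ]
  [src_additive : ∀ m, (src m).Additive]
  [tgt_additive : ∀ m, (tgt m).Additive]
  reg : ∀ m, src m ⟶ tgt m

attribute [instance] Mot.cat Mot.pre Mot.zero Mot.bin Mot.fin Mot.src_additive Mot.tgt_additive

section

variable {ℓ : ℕ} [Fact ℓ.Prime] {k : Type} [Field k] (M : Mot.{v, u} ℓ k)

/-- The motive `h(X)(j)`. -/
noncomputable def Mot.motive (j : ℤ) (X : Sch k) : M.C := (M.D.tw j).obj (M.D.h X)

/-- The complex `W(X)(j)`. -/
noncomputable def Mot.wt (j : ℤ) (X : Sch k) : HK M.C := onHK (M.D.tw j) (M.D.W X)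

/-- The kernel (for `true`) or the cokernel (for `false`) of the regulator. -/
noncomputable def part (m : ℕ) : Bool → M.C ⥤ ModuleCat.{0} ℚ_[ℓ]
  | true => kerF (M.reg m)
  | false => cokerF (M.reg m)

instance (m : ℕ) (b : Bool) : (part M m b).Additive := by
  cases b
  · exact (inferInstance : (cokerF (M.reg m)).Additive)
  · exact (inferInstance : (kerF (M.reg m)).Additive)

/-- The regulator for `X` is injective (for `true`) or surjective (for `false`). -/
def Half (m : ℕ) (j : ℤ) (X : Sch k) : Bool → Prop
  | true => Function.Injective ((M.reg m).app (M.motive j X))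
  | false => Function.Surjective ((M.reg m).app (M.motive j X))

end

/-- The known properties of the Chow motives over all number fields.

* `weight`: the weight complexes;
* `points`: Q1 is true in dimension zero (Soulé, Borel);
* `restrict`: a smooth projective scheme over `k` is a smooth projective scheme over `ℚ`, with the same
  motivic cohomology, the same Galois cohomology (Shapiro's lemma) and the same regulator. -/
structure Known {ℓ : ℕ} [Fact ℓ.Prime]
    (M : ∀ (k : Type) [Field k] [NumberField k], Mot.{v, u} ℓ k) : Prop where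
  weight : ∀ (k : Type) [Field k] [NumberField k], IsWeightComplex (M k).D
  points : ∀ (X : Sch ℚ), IsSmoothProjective X → topologicalKrullDim X.left ≤ (0 : ℕ) →
    ∀ (m : ℕ) (j : ℤ) (b : Bool), Half (M ℚ) m j X b
  restrict : ∀ (k : Type) [Field k] [NumberField k] (X : Sch k), IsSmoothProjective X →
    ∃ X' : Sch ℚ, IsSmoothProjective X' ∧
      topologicalKrullDim X'.left = topologicalKrullDim X.left ∧ ∀ (m : ℕ) (j : ℤ) (b : Bool),
        (Half (M ℚ) m j X' b ↔ Half (M k) m j X b)

/-- `F` is an exception for the kernel (for `true`) or the cokernel (for `false`) of the regulator. -/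
def Exception {ℓ : ℕ} [Fact ℓ.Prime] (M : Mot.{v, u} ℓ ℚ) (m : ℕ) (j : ℤ) (b : Bool) {r : ℕ}
    (F : MvPolynomial (Fin r) ℤ) : Prop :=
  ¬ (FinCoh (part M m b) (M.wt j (princ F)) ∧ chi (part M m b) (M.wt j (princ F)) = 0)

/-- Injectivity (for `true`) or surjectivity (for `false`) for the smooth projective varieties of dimension
at most `d` over all number fields. -/
def HalfDim {ℓ : ℕ} [Fact ℓ.Prime] (M : ∀ (k : Type) [Field k] [NumberField k], Mot.{v, u} ℓ k)
    (m : ℕ) (j : ℤ) (b : Bool) (d : ℕ) : Prop :=
  ∀ (k : Type) [Field k] [NumberField k] (X : Sch k), IsSmoothProjective X →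
    topologicalKrullDim X.left ≤ d → Half (M k) m j X b

/-- Injectivity (for `true`) or surjectivity (for `false`) for all smooth projective varieties over all
number fields. -/
def HalfAll {ℓ : ℕ} [Fact ℓ.Prime] (M : ∀ (k : Type) [Field k] [NumberField k], Mot.{v, u} ℓ k)
    (m : ℕ) (j : ℤ) (b : Bool) : Prop :=
  ∀ (k : Type) [Field k] [NumberField k] (X : Sch k), IsSmoothProjective X → Half (M k) m j X b

/-- Question Q1 for the smooth projective varieties of dimension at most `d` over all number fields,
`i = 2j - m` and `j`. -/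
def ConjDim {ℓ : ℕ} [Fact ℓ.Prime] (M : ∀ (k : Type) [Field k] [NumberField k], Mot.{v, u} ℓ k)
    (m : ℕ) (j : ℤ) (d : ℕ) : Prop :=
  ∀ (k : Type) [Field k] [NumberField k] (X : Sch k), IsSmoothProjective X →
    topologicalKrullDim X.left ≤ d →
      Function.Bijective (((M k).reg m).app ((M k).motive j X))

section

variable {ℓ : ℕ} [Fact ℓ.Prime] {k : Type} [Field k] (M : Mot.{v, u} ℓ k)

lemma half_iff (m : ℕ) (j : ℤ) (X : Sch k) (b : Bool) :
    Half M m j X b ↔ Subsingleton ((part M m b).obj (M.motive j X)) := by
  cases b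
  · change Function.Surjective ((M.reg m).app (M.motive j X)) ↔
      Subsingleton ((cokerF (M.reg m)).obj (M.motive j X))
    rw [← ModuleCat.epi_iff_surjective]
    constructor
    · intro h
      exact ModuleCat.subsingleton_of_isZero (isZero_cokernel_of_epi ((M.reg m).app (M.motive j X)))
    · intro h
      exact Preadditive.epi_of_isZero_cokernel ((M.reg m).app (M.motive j X))
        (@ModuleCat.isZero_of_subsingleton _ _ _ h)
  · change Function.Injective ((M.reg m).app (M.motive j X)) ↔
      Subsingleton ((kerF (M.reg m)).obj (M.motive j X))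
    rw [← ModuleCat.mono_iff_injective]
    constructor
    · intro h
      exact ModuleCat.subsingleton_of_isZero (isZero_kernel_of_mono ((M.reg m).app (M.motive j X)))
    · intro h
      exact Preadditive.mono_of_isZero_kernel ((M.reg m).app (M.motive j X))
        (@ModuleCat.isZero_of_subsingleton _ _ _ h)

lemma exception_iff {ℓ : ℕ} [Fact ℓ.Prime] (M : Mot.{v, u} ℓ ℚ) (m : ℕ) (j : ℤ) (b : Bool) (r : ℕ) :
    (Exception M m j b : MvPolynomial (Fin r) ℤ → Prop) =
      Pool.Agent.Helper24.SE.Excp (part M m b) M.D j := by
  funext F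
  exact propext (not_congr tOne_iff.symm)

end

/-- **`ℓ`-adic regulators and exceptional sets with a power saving.** See the explanations above. -/
theorem result (ℓ : ℕ) [Fact ℓ.Prime] (M : ∀ (k : Type) [Field k] [NumberField k], Mot.{v, u} ℓ k)
    (hM : Known M) (m : ℕ) (j : ℤ) :
    -- (1) one dimension
    (∀ (b : Bool) (d : ℕ), HalfDim M m j b d ↔ Saving (r := d + 1) (Exception (M ℚ) m j b)) ∧
    (∀ d : ℕ, ConjDim M m j d ↔ ∀ b : Bool, Saving (r := d + 1) (Exception (M ℚ) m j b)) ∧
    -- (2) all dimensions
    (∀ b : Bool, HalfAll M m j b ↔ ∃ᶠ r : ℕ in atTop, Saving (r := r) (Exception (M ℚ) m j b)) ∧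
    -- (3) the zero-one law
    ∀ (b : Bool) (r : ℕ) (G : MvPolynomial (Fin r) ℤ), Exception (M ℚ) m j b G → ∀ ε : ℝ, 0 < ε →
      ∀ᶠ D : ℕ in atTop, ∀ᶠ B : ℕ in atTop,
        ((Box r D B).ncard : ℝ) ^ (1 - ε) <
          ((Exc (r := r) (Exception (M ℚ) m j b) D B).ncard : ℝ) := by
  have hp : ∀ (b : Bool) (n : ℤ) (Y : Sch ℚ), IsSmoothProjective Y →
      topologicalKrullDim Y.left ≤ (0 : ℕ) →
        Subsingleton ((part (M ℚ) m b).obj (((M ℚ).D.tw n).obj ((M ℚ).D.h Y))) :=
    fun b n Y hY hd => (half_iff (M ℚ) m n Y b).mp (hM.points Y hY hd m n b)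
  have h1 : ∀ (b : Bool) (d : ℕ), HalfDim M m j b d ↔
      Saving (r := d + 1) (Exception (M ℚ) m j b) := by
    intro b d
    rw [exception_iff, ← Pool.Agent.Helper24.SE.functor_dim (hM.weight ℚ) (hp b) j d]
    constructor
    · exact fun h Y hY hd => (half_iff (M ℚ) m j Y b).mp (h ℚ Y hY hd)
    · intro h k _ _ X hX hd
      obtain ⟨X', hX', e1, e2⟩ := hM.restrict k X hX
      exact (e2 m j b).mp ((half_iff (M ℚ) m j X' b).mpr (h X' hX' (e1 ▸ hd)))
  refine ⟨h1, fun d => ?_, fun b => ?_, fun b r G hG ε hε => ?_⟩
  · constructor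
    · intro h b
      rw [← h1]
      intro k _ _ X hX hd
      cases b
      · exact (h k X hX hd).2
      · exact (h k X hX hd).1
    · intro h k _ _ X hX hd
      exact ⟨(h1 true d).mpr (h true) k X hX hd, (h1 false d).mpr (h false) k X hX hd⟩
  · have h2 := Pool.Agent.Helper24.SE.functor_all (hM.weight ℚ) (hp b) j
    have h3 : (∃ᶠ r : ℕ in atTop, Saving (r := r) (Exception (M ℚ) m j b)) ↔
        ∃ᶠ r : ℕ in atTop, Saving (r := r)
          (Pool.Agent.Helper24.SE.Excp (part (M ℚ) m b) (M ℚ).D j) := by
      constructor
      · exact fun h => h.mono fun r hr => by rwa [exception_iff] at hr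
      · exact fun h => h.mono fun r hr => by rwa [exception_iff]
    rw [h3, ← h2]
    constructor
    · exact fun h Y hY => (half_iff (M ℚ) m j Y b).mp (h ℚ Y hY)
    · intro h k _ _ X hX
      obtain ⟨X', hX', _, e2⟩ := hM.restrict k X hX
      exact (e2 m j b).mp ((half_iff (M ℚ) m j X' b).mpr (h X' hX'))
  · rw [exception_iff] at hG ⊢
    exact Pool.Agent.Helper24.SE.functor_full (hM.weight ℚ) (hp b) j hG hε

end Pool.Agent.Results.MP_76188c_nt.PowerSaving
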